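import Mathlib

set_option autoImplicit false

namespace Pool.Agent.Lib_helper1.PBD

open Finset

theorem swap (X : ℕ) (F : ℕ → ℕ → ℝ) :
    ∑ κ ∈ Icc 1 X, ∑ g ∈ κ.divisors, F g (κ / g) =
      ∑ g ∈ Icc 1 X, ∑ g' ∈ Icc 1 (X / g), F g g' := by
  rw [Finset.sum_sigma', Finset.sum_sigma']
  refine Finset.sum_bij' (fun p _ => ⟨p.2, p.1 / p.2⟩) (fun p _ => ⟨p.1 * p.2, p.1⟩) ?_ ?_ ?_ ?_ ?_
  · rintro ⟨κ, g⟩ hp
    simp only [mem_sigma, mem_Icc, Nat.mem_divisors] at hp ⊢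
    obtain ⟨⟨h1, h2⟩, h3, h4⟩ := hp
    have hg : 0 < g := Nat.pos_of_dvd_of_pos h3 (by omega)
    have hgk : g ≤ κ := Nat.le_of_dvd (by omega) h3
    refine ⟨⟨hg, hgk.trans h2⟩, Nat.div_pos hgk hg, Nat.div_le_div_right h2⟩
  · rintro ⟨g, g'⟩ hp
    simp only [mem_sigma, mem_Icc, Nat.mem_divisors] at hp ⊢
    obtain ⟨⟨h1, h2⟩, h3, h4⟩ := hp
    have h5 : g * g' ≤ X := by
      rw [Nat.le_div_iff_mul_le (by omega)] at h4
      linarith [mul_comm g g']
    have h6 : 0 < g * g' := Nat.mul_pos (by omega) (by omega)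
    exact ⟨⟨h6, h5⟩, Dvd.intro _ rfl, h6.ne'⟩
  · rintro ⟨κ, g⟩ hp
    simp only [mem_sigma, mem_Icc, Nat.mem_divisors] at hp
    have := Nat.mul_div_cancel' hp.2.1
    simp [this]
  · rintro ⟨g, g'⟩ hp
    simp only [mem_sigma, mem_Icc] at hp
    have : g * g' / g = g' := Nat.mul_div_cancel_left _ (by omega)
    simp [this]
  · rintro ⟨κ, g⟩ hp
    rfl

/-- harmonic sum -/
noncomputable def Hm (X : ℕ) : ℝ := ∑ a ∈ Icc 1 X, (1 : ℝ) / a

theorem Hm_nonneg (X : ℕ) : 0 ≤ Hm X := Finset.sum_nonneg (fun _ _ => by positivity)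

theorem Hm_mono {X Y : ℕ} (h : X ≤ Y) : Hm X ≤ Hm Y := by
  apply Finset.sum_le_sum_of_subset_of_nonneg
  · exact Finset.Icc_subset_Icc le_rfl h
  · intro _ _ _; positivity

theorem Hm_le (X : ℕ) : Hm X ≤ 1 + Real.log X := by
  have h := harmonic_le_one_add_log X
  have : (harmonic X : ℝ) = Hm X := by
    rw [harmonic_eq_sum_Icc, Hm]
    push_cast
    apply Finset.sum_congr rfl
    intro a _
    rw [one_div]
  rw [← this]; exact h

theorem gcd_sum (g Y : ℕ) (hg : 0 < g) :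
    ∑ g' ∈ Icc 1 Y, (Nat.gcd g g' : ℝ) ≤ (g.divisors.card : ℝ) * Y := by
  have h1 : ∀ g' ∈ Icc 1 Y, (Nat.gcd g g' : ℝ) ≤ ∑ d ∈ g.divisors, if d ∣ g' then (d : ℝ) else 0 := by
    intro g' hg'
    have hmem : Nat.gcd g g' ∈ g.divisors := by
      rw [Nat.mem_divisors]; exact ⟨Nat.gcd_dvd_left _ _, hg.ne'⟩
    have := Finset.single_le_sum (f := fun d => if d ∣ g' then (d : ℝ) else 0)
      (s := g.divisors) (fun d _ => by split_ifs <;> positivity) hmem
    simp only [Nat.gcd_dvd_right, if_true] at this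
    exact this
  refine (Finset.sum_le_sum h1).trans ?_
  rw [Finset.sum_comm]
  have h2 : ∀ d ∈ g.divisors, ∑ g' ∈ Icc 1 Y, (if d ∣ g' then (d : ℝ) else 0) ≤ Y := by
    intro d hd
    have hd0 : 0 < d := Nat.pos_of_mem_divisors hd
    rw [← Finset.sum_filter, Finset.sum_const, nsmul_eq_mul]
    have h3 : ((Icc 1 Y).filter (fun g' => d ∣ g')).card = Y / d := by
      have : Icc 1 Y = Ioc 0 Y := by ext; simp; omega
      rw [this, Nat.Ioc_filter_dvd_card_eq_div]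
    rw [h3]
    have h4 : (Y / d) * d ≤ Y := Nat.div_mul_le_self Y d
    exact_mod_cast h4
  refine (Finset.sum_le_sum h2).trans ?_
  rw [Finset.sum_const, nsmul_eq_mul]

theorem tau_sum (X : ℕ) : ∑ g ∈ Icc 1 X, (g.divisors.card : ℝ) / g ≤ Hm X ^ 2 := by
  have h1 : ∑ g ∈ Icc 1 X, (g.divisors.card : ℝ) / g =
      ∑ g ∈ Icc 1 X, ∑ a ∈ g.divisors, (1 : ℝ) / (a * (g / a : ℕ)) := by
    apply Finset.sum_congr rfl
    intro g hg
    rw [mem_Icc] at hg
    have h2 : ∀ a ∈ g.divisors, (1 : ℝ) / (a * (g / a : ℕ)) = 1 / g := by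
      intro a ha
      have : a * (g / a) = g := Nat.mul_div_cancel' (Nat.dvd_of_mem_divisors ha)
      have h3 : (a : ℝ) * ((g / a : ℕ) : ℝ) = g := by exact_mod_cast this
      rw [h3]
    rw [Finset.sum_congr rfl h2, Finset.sum_const, nsmul_eq_mul]
    ring
  rw [h1, swap X (fun a b => (1 : ℝ) / (a * b))]
  have h3 : ∀ g ∈ Icc 1 X, ∑ g' ∈ Icc 1 (X / g), (1 : ℝ) / (g * g') ≤ 1 / g * Hm X := by
    intro g _
    have : ∑ g' ∈ Icc 1 (X / g), (1 : ℝ) / (g * g') = 1 / g * Hm (X / g) := by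
      rw [Hm, Finset.mul_sum]
      apply Finset.sum_congr rfl
      intro g' _
      rw [one_div_mul_one_div]
    rw [this]
    apply mul_le_mul_of_nonneg_left (Hm_mono (Nat.div_le_self _ _)) (by positivity)
  refine (Finset.sum_le_sum h3).trans ?_
  rw [← Finset.sum_mul, sq]
  exact le_rfl

/-- number of divisors weighted with gcd's -/
def G (κ : ℕ) : ℕ := ∑ g ∈ κ.divisors, (2 * Nat.gcd g (κ / g) + 1)

theorem G_sum (X : ℕ) : ∑ κ ∈ Icc 1 X, (G κ : ℝ) ≤ 3 * X * (1 + Real.log X) ^ 2 := by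
  have h0 : ∀ κ ∈ Icc 1 X, (G κ : ℝ) ≤ ∑ g ∈ κ.divisors, 3 * (Nat.gcd g (κ / g) : ℝ) := by
    intro κ hκ
    rw [G]
    push_cast
    apply Finset.sum_le_sum
    intro g hg
    have hg0 : 0 < g := Nat.pos_of_mem_divisors hg
    have h1 : 1 ≤ Nat.gcd g (κ / g) := Nat.gcd_pos_of_pos_left _ hg0
    have : (1 : ℝ) ≤ (Nat.gcd g (κ / g) : ℝ) := by exact_mod_cast h1
    linarith
  refine (Finset.sum_le_sum h0).trans ?_
  rw [swap X (fun g g' => 3 * (Nat.gcd g g' : ℝ))]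
  have h1 : ∀ g ∈ Icc 1 X, ∑ g' ∈ Icc 1 (X / g), 3 * (Nat.gcd g g' : ℝ) ≤
      3 * X * ((g.divisors.card : ℝ) / g) := by
    intro g hg
    rw [mem_Icc] at hg
    rw [← Finset.mul_sum]
    have h2 := gcd_sum g (X / g) (by omega)
    have hg0 : (0 : ℝ) < g := by exact_mod_cast hg.1
    have h3 : ((X / g : ℕ) : ℝ) ≤ X / g := Nat.cast_div_le
    have h4 : (g.divisors.card : ℝ) * ((X / g : ℕ) : ℝ) ≤ (g.divisors.card : ℝ) * (X / g) :=
      mul_le_mul_of_nonneg_left h3 (Nat.cast_nonneg _)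
    calc 3 * ∑ g' ∈ Icc 1 (X / g), (Nat.gcd g g' : ℝ) ≤ 3 * ((g.divisors.card : ℝ) * (X / g)) := by
          linarith
      _ = 3 * X * ((g.divisors.card : ℝ) / g) := by ring
  refine (Finset.sum_le_sum h1).trans ?_
  rw [← Finset.mul_sum]
  apply mul_le_mul_of_nonneg_left _ (by positivity)
  refine (tau_sum X).trans ?_
  exact pow_le_pow_left₀ (Hm_nonneg X) (Hm_le X) 2

theorem card_le_of_sub_dvd (s : Finset ℕ) (a l M : ℕ) (hM : 0 < M)
    (hs : ∀ n ∈ s, a ≤ n ∧ n < a + l) (hd : ∀ n ∈ s, ∀ n' ∈ s, (M : ℤ) ∣ (n : ℤ) - n') :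
    s.card ≤ l / M + 1 := by
  have h1 : s.card ≤ (Finset.range (l / M + 1)).card := by
    apply Finset.card_le_card_of_injOn (fun n => (n - a) / M)
    · intro n hn
      have := hs n hn
      simp only [Finset.coe_range, Set.mem_Iio]
      have h2 : (n - a) / M ≤ l / M := Nat.div_le_div_right (by omega)
      omega
    · intro n hn n' hn' h
      simp only at h
      have e1 := hs n hn
      have e2 := hs n' hn'
      have h3 : (M : ℤ) ∣ ((n - a : ℕ) : ℤ) - ((n' - a : ℕ) : ℤ) := by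
        have := hd n hn n' hn'
        rw [Nat.cast_sub e1.1, Nat.cast_sub e2.1]
        have h4 : (n : ℤ) - a - (n' - a) = n - n' := by ring
        rw [h4]; exact this
      have h5 : (n - a) % M = (n' - a) % M := by
        have h6 : ((n - a : ℕ) : ℤ) % M = ((n' - a : ℕ) : ℤ) % M :=
          (Int.ModEq.symm ((Int.modEq_iff_dvd).2 h3))
        exact_mod_cast h6
      have h7 : n - a = n' - a := by
        rw [← Nat.div_add_mod (n - a) M, ← Nat.div_add_mod (n' - a) M, h, h5]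
      omega
  simpa using h1

/-- Solutions of a monic quadratic congruence in an interval of length about the modulus. -/
theorem quad_count (a l κ : ℕ) (c : ℤ) (hκ : 0 < κ) (hl : l ≤ 2 * κ) :
    ((Finset.Ico a (a + l)).filter (fun n : ℕ => (κ : ℤ) ∣ (n : ℤ) ^ 2 - n + c)).card ≤ G κ := by
  classical
  set s := (Finset.Ico a (a + l)).filter (fun n : ℕ => (κ : ℤ) ∣ (n : ℤ) ^ 2 - n + c) with hs
  rcases s.eq_empty_or_nonempty with h0 | ⟨n0, hn0⟩
  · rw [h0]; simp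
  have hn0' := Finset.mem_filter.1 hn0
  -- cover
  have hcov : s ⊆ κ.divisors.biUnion (fun g => s.filter (fun n : ℕ => (g : ℤ) ∣ (n : ℤ) - n0 ∧
      ((κ / g : ℕ) : ℤ) ∣ (n : ℤ) + n0 - 1)) := by
    intro n hn
    have hn' := Finset.mem_filter.1 hn
    have h1 : (κ : ℤ) ∣ ((n : ℤ) - n0) * (n + n0 - 1) := by
      have := dvd_sub hn'.2 hn0'.2
      have h2 : (n : ℤ) ^ 2 - n + c - ((n0 : ℤ) ^ 2 - n0 + c) = ((n : ℤ) - n0) * (n + n0 - 1) := by ring
      rwa [h2] at this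
    rw [Finset.mem_biUnion]
    set g : ℕ := Int.gcd κ ((n : ℤ) - n0) with hg
    have hgk : g ∣ κ := by
      have := Int.gcd_dvd_left (κ : ℤ) ((n : ℤ) - n0)
      rw [← hg] at this
      exact_mod_cast this
    have hg0 : 0 < g := Nat.pos_of_dvd_of_pos hgk hκ
    refine ⟨g, Nat.mem_divisors.2 ⟨hgk, hκ.ne'⟩, ?_⟩
    rw [Finset.mem_filter]
    refine ⟨hn, Int.gcd_dvd_right _ _, ?_⟩
    -- κ/g divides n + n0 - 1
    obtain ⟨x, hx⟩ := Int.gcd_dvd_right (κ : ℤ) ((n : ℤ) - n0)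
    obtain ⟨y, hy⟩ := hgk
    rw [← hg] at hx
    have hyd : κ / g = y := by rw [hy]; exact Nat.mul_div_cancel_left _ hg0
    rw [hyd]
    have hco : IsCoprime (y : ℤ) x := by
      have h3 := Int.gcd_div_gcd_div_gcd (i := (κ : ℤ)) (j := (n : ℤ) - n0)
        (by rw [← hg]; exact hg0)
      rw [← hg, hx, hy] at h3
      push_cast at h3
      rw [Int.mul_ediv_cancel_left _ (by exact_mod_cast hg0.ne'),
        Int.mul_ediv_cancel_left _ (by exact_mod_cast hg0.ne')] at h3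
      exact Int.isCoprime_iff_gcd_eq_one.2 h3
    have h4 : (g : ℤ) * y ∣ g * (x * (n + n0 - 1)) := by
      rw [hx, hy] at h1
      push_cast at h1
      rw [← mul_assoc]
      exact h1
    have h5 : (y : ℤ) ∣ x * (n + n0 - 1) :=
      Int.dvd_of_mul_dvd_mul_left (by exact_mod_cast hg0.ne') h4
    exact hco.dvd_of_dvd_mul_left h5
  refine (Finset.card_le_card hcov).trans (Finset.card_biUnion_le.trans ?_)
  rw [G]
  apply Finset.sum_le_sum
  intro g hg
  have hgk := Nat.dvd_of_mem_divisors hg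
  have hg0 : 0 < g := Nat.pos_of_mem_divisors hg
  have hq0 : 0 < κ / g := Nat.div_pos (Nat.le_of_dvd hκ hgk) hg0
  have hlcm : 0 < Nat.lcm g (κ / g) := Nat.lcm_pos hg0 hq0
  have hgl : Nat.gcd g (κ / g) * Nat.lcm g (κ / g) = κ := by
    rw [Nat.gcd_mul_lcm]; exact Nat.mul_div_cancel' hgk
  refine (card_le_of_sub_dvd _ a l (Nat.lcm g (κ / g)) hlcm ?_ ?_).trans ?_
  · intro n hn
    have := (Finset.mem_filter.1 (Finset.mem_filter.1 hn).1).1
    rw [Finset.mem_Ico] at this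
    exact this
  · intro n hn n' hn'
    have h1 := (Finset.mem_filter.1 hn).2
    have h2 := (Finset.mem_filter.1 hn').2
    have e1 : (g : ℤ) ∣ (n : ℤ) - n' := by
      have := dvd_sub h1.1 h2.1
      have h3 : (n : ℤ) - n0 - (n' - n0) = n - n' := by ring
      rwa [h3] at this
    have e2 : ((κ / g : ℕ) : ℤ) ∣ (n : ℤ) - n' := by
      have := dvd_sub h1.2 h2.2
      have h3 : (n : ℤ) + n0 - 1 - (n' + n0 - 1) = n - n' := by ring
      rwa [h3] at this
    have e3 := Int.coe_lcm_dvd e1 e2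
    have e4 : Int.lcm (g : ℤ) ((κ / g : ℕ) : ℤ) = Nat.lcm g (κ / g) := by
      rw [Int.lcm, Int.natAbs_natCast, Int.natAbs_natCast]
    rw [e4] at e3
    exact e3
  · have h1 : l / Nat.lcm g (κ / g) ≤ 2 * Nat.gcd g (κ / g) := by
      calc l / Nat.lcm g (κ / g) ≤ (2 * κ) / Nat.lcm g (κ / g) := Nat.div_le_div_right hl
        _ = (2 * (Nat.gcd g (κ / g) * Nat.lcm g (κ / g))) / Nat.lcm g (κ / g) := by rw [hgl]
        _ = 2 * Nat.gcd g (κ / g) := by
            rw [← mul_assoc]; exact Nat.mul_div_cancel _ hlcm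
    omega

end Pool.Agent.Lib_helper1.PBD
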