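import Pool.Agent.Lib_helper1.PBD.Key
import Pool.Agent.Lib_helper1.PBD.Count

set_option autoImplicit false
set_option linter.unusedSectionVars false

namespace Pool.Agent.Lib_helper1.PBD

open Finset

section
variable {V : Type*} [Fintype V] [DecidableEq V]

theorem avoid {H : Finset (Finset V)} (hL : Lin H) (hlt : ∀ e ∈ H, e.card < Fintype.card V)
    (h2 : 2 ≤ Fintype.card V) (x : V) : ∃ e ∈ H, x ∉ e := by
  haveI : Nontrivial V := Fintype.one_lt_card_iff_nontrivial.1 (by omega)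
  obtain ⟨y, hy⟩ := exists_ne x
  obtain ⟨e, he, hu⟩ := hL x y hy.symm
  have : ∃ z, z ∉ e := by
    by_contra hcon
    push Not at hcon
    have : e = Finset.univ := Finset.eq_univ_of_forall hcon
    have h3 := hlt e he.1
    rw [this, Finset.card_univ] at h3
    omega
  obtain ⟨z, hz⟩ := this
  have hzy : y ≠ z := by rintro rfl; exact hz he.2.2
  obtain ⟨e', he', -⟩ := hL y z hzy
  refine ⟨e', he'.1, fun hx => hz ?_⟩
  have := hu e' ⟨he'.1, hx, he'.2.1⟩
  rw [← this]; exact he'.2.2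

theorem window {H : Finset (Finset V)} (hL : Lin H) (hlt : ∀ e ∈ H, e.card < Fintype.card V)
    {w C : ℝ} (hw : w ^ 2 = Fintype.card V) (hC : 0 ≤ C) (hwC : (C + 2) * (C + 2) + 2 ≤ w)
    (hk : ∀ e ∈ H, w - C < e.card) :
    (∀ e ∈ H, |(e.card : ℝ) - w| ≤ C + 2) ∧ (∀ x, |(rep H x : ℝ) - w| ≤ C + 2) := by
  have hw2 : 2 ≤ w := by nlinarith
  have hn2 : 2 ≤ Fintype.card V := by
    have : (2 : ℝ) ≤ Fintype.card V := by rw [← hw]; nlinarith
    exact_mod_cast this
  have hrep : ∀ x, (rep H x : ℝ) ≤ w + C + 2 := by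
    intro x
    have h1 := sum_card_through hL x
    have h2 : (rep H x : ℝ) * (w - C) ≤ ∑ e ∈ H.filter (fun e => x ∈ e), (e.card : ℝ) := by
      refine le_trans ?_ (Finset.sum_le_sum (f := fun _ => w - C) ?_)
      · rw [Finset.sum_const, nsmul_eq_mul]; rfl
      · intro e he
        exact (hk e (Finset.mem_filter.1 he).1).le
    rw [h1, ← hw] at h2
    by_contra hcon
    push Not at hcon
    have h3 : 0 < w - C - 1 := by nlinarith
    nlinarith
  have hcard : ∀ e ∈ H, (e.card : ℝ) ≤ w + C + 2 := by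
    intro e he
    have : ∃ z, z ∉ e := by
      by_contra hcon
      push Not at hcon
      have : e = Finset.univ := Finset.eq_univ_of_forall hcon
      have h3 := hlt e he
      rw [this, Finset.card_univ] at h3
      omega
    obtain ⟨z, hz⟩ := this
    have h1 : (e.card : ℝ) ≤ rep H z := by exact_mod_cast card_le_rep hL he hz
    exact h1.trans (hrep z)
  refine ⟨?_, ?_⟩
  · intro e he
    have h1 := hk e he
    have h2 := hcard e he
    rw [abs_le]; constructor <;> linarith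
  · intro x
    obtain ⟨e, he, hx⟩ := avoid hL hlt hn2 x
    have h1 : (e.card : ℝ) ≤ rep H x := by exact_mod_cast card_le_rep hL he hx
    have h2 := hk e he
    have h3 := hrep x
    rw [abs_le]; constructor <;> linarith

theorem ident {H : Finset (Finset V)} (hL : Lin H) (k1 k2 : ℤ) :
    ∑ e ∈ H, ((e.card : ℤ) - k1) * ((e.card : ℤ) - k2) =
      (Fintype.card V : ℤ) ^ 2 - Fintype.card V + k1 * k2 * H.card -
        (k1 + k2 - 1) * ∑ e ∈ H, (e.card : ℤ) := by
  have h1 : ∑ e ∈ H, (e.card : ℤ) ^ 2 =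
      ∑ e ∈ H, (e.card : ℤ) + (Fintype.card V : ℤ) ^ 2 - Fintype.card V := by
    have := sum_sq_card hL
    rw [← sum_card] at this
    exact_mod_cast this
  have h2 : ∀ e ∈ H, ((e.card : ℤ) - k1) * ((e.card : ℤ) - k2) =
      (e.card : ℤ) ^ 2 - (k1 + k2) * e.card + k1 * k2 := by
    intro e _; ring
  rw [Finset.sum_congr rfl h2, Finset.sum_add_distrib, Finset.sum_sub_distrib, h1,
    ← Finset.mul_sum, Finset.sum_const, nsmul_eq_mul]
  ring

end

theorem struct (C : ℝ) (hC : 0 ≤ C) : ∃ P n0 : ℕ, ∀ n : ℕ, n0 ≤ n →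
    ∀ H : Finset (Finset (Fin n)), H.IsPairwiseBalancedDesign →
    (∀ e ∈ H, e.card < n ∧ Real.sqrt n - C < e.card) → ∀ k1 k2 h : ℕ,
    (H.filter (fun e => e.card ≠ k1 ∧ e.card ≠ k2)).card ≤ h →
    ∃ i1 i2 j β η : ℤ, |i1| ≤ P ∧ |i2| ≤ P ∧ |j| ≤ P ∧ |β| ≤ P ∧ |η| ≤ P * h ∧
      (2 * (Nat.sqrt n : ℤ) + i1 + i2 - 1) ∣ (n : ℤ) ^ 2 - n +
        (((Nat.sqrt n : ℤ) + i1) * ((Nat.sqrt n : ℤ) + i2) *
          (((Nat.sqrt n : ℤ) + j) ^ 2 + ((Nat.sqrt n : ℤ) + j) + 1 + β) - η) := by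
  set L : ℝ := C + 2 with hLdef
  obtain ⟨P, hP⟩ := exists_nat_ge (200000 * L ^ 4)
  obtain ⟨n0, hn0⟩ := exists_nat_ge ((L * L + 4 * L + 6) ^ 2)
  have hL2 : 2 ≤ L := by linarith
  refine ⟨P, n0, ?_⟩
  intro n hn H hD hk k1 k2 h hh
  have hL := lin_of_design hD
  set w : ℝ := Real.sqrt n with hwdef
  have hw : w ^ 2 = Fintype.card (Fin n) := by
    rw [Fintype.card_fin, hwdef, Real.sq_sqrt (Nat.cast_nonneg _)]
  have hwL : L * L + 4 * L + 6 ≤ w := by
    rw [hwdef]
    apply Real.le_sqrt_of_sq_le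
    refine hn0.trans ?_
    exact_mod_cast hn
  have hlt : ∀ e ∈ H, e.card < Fintype.card (Fin n) := by
    intro e he; rw [Fintype.card_fin]; exact (hk e he).1
  obtain ⟨hkw, hrw⟩ := window hL hlt hw hC (by nlinarith) (fun e he => (hk e he).2)
  have hn2 : 2 ≤ Fintype.card (Fin n) := by
    have : (2 : ℝ) ≤ Fintype.card (Fin n) := by rw [← hw]; nlinarith
    exact_mod_cast this
  have hH : H.Nonempty := by
    have hpos : 0 < n := by rw [Fintype.card_fin] at hn2; omega
    obtain ⟨e, he, -⟩ := avoid hL hlt hn2 ⟨0, hpos⟩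
    exact ⟨e, he⟩
  obtain ⟨q, β, hq, hβ, hb⟩ := key hL hw (by linarith) (by nlinarith) hH hkw hrw
  have hm1 : (Nat.sqrt n : ℝ) ≤ w := Real.nat_sqrt_le_real_sqrt
  have hm2 : w < (Nat.sqrt n : ℝ) + 1 := Real.real_sqrt_lt_nat_sqrt_succ
  -- replace the two sizes by attained ones
  have hrepl : ∃ a1 a2 : ℕ, (∃ e ∈ H, e.card = a1) ∧ (∃ e ∈ H, e.card = a2) ∧
      (H.filter (fun e => e.card ≠ a1 ∧ e.card ≠ a2)).card ≤ h := by
    obtain ⟨e0, he0⟩ := hH
    refine ⟨if (∃ e ∈ H, e.card = k1) then k1 else e0.card,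
      if (∃ e ∈ H, e.card = k2) then k2 else e0.card, ?_, ?_, ?_⟩
    · split_ifs with hc
      · exact hc
      · exact ⟨e0, he0, rfl⟩
    · split_ifs with hc
      · exact hc
      · exact ⟨e0, he0, rfl⟩
    · refine (Finset.card_le_card ?_).trans hh
      intro e he
      rw [Finset.mem_filter] at he ⊢
      refine ⟨he.1, ?_, ?_⟩
      · intro hc
        have : ∃ e ∈ H, e.card = k1 := ⟨e, he.1, hc⟩
        rw [if_pos this] at he
        exact he.2.1 hc
      · intro hc
        have : ∃ e ∈ H, e.card = k2 := ⟨e, he.1, hc⟩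
        have h3 := he.2.2
        rw [if_pos this] at h3
        exact h3 hc
  obtain ⟨a1, a2, ⟨e1, he1, ha1⟩, ⟨e2, he2, ha2⟩, hah⟩ := hrepl
  have hb1 : |(a1 : ℝ) - w| ≤ L := by rw [← ha1]; exact hkw e1 he1
  have hb2 : |(a2 : ℝ) - w| ≤ L := by rw [← ha2]; exact hkw e2 he2
  have hPL : L + 3 ≤ P := by
    refine le_trans ?_ hP
    have h1 : L ≤ L ^ 4 := le_self_pow₀ (by linarith) (by norm_num)
    nlinarith
  have hPL2 : (2 * L) ^ 2 ≤ P := by
    refine le_trans ?_ hP
    have h1 : L ^ 2 ≤ L ^ 4 := pow_le_pow_right₀ (by linarith) (by norm_num)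
    nlinarith
  set m : ℕ := Nat.sqrt n with hm
  set η : ℤ := ∑ e ∈ H, ((e.card : ℤ) - a1) * ((e.card : ℤ) - a2) with hη
  refine ⟨(a1 : ℤ) - m, (a2 : ℤ) - m, q - m, β, η, ?_, ?_, ?_, ?_, ?_, ?_⟩
  · have : |((a1 : ℤ) - m : ℤ)| ≤ (P : ℝ) := by
      push_cast
      rw [abs_le]
      have := abs_le.1 hb1
      constructor <;> linarith [this.1, this.2]
    exact_mod_cast this
  · have : |((a2 : ℤ) - m : ℤ)| ≤ (P : ℝ) := by
      push_cast
      rw [abs_le]
      have := abs_le.1 hb2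
      constructor <;> linarith [this.1, this.2]
    exact_mod_cast this
  · have : |(q - m : ℤ)| ≤ (P : ℝ) := by
      push_cast
      rw [abs_le]
      have := abs_le.1 hq
      constructor <;> linarith [this.1, this.2]
    exact_mod_cast this
  · have : |(β : ℝ)| ≤ (P : ℝ) := hβ.trans hP
    exact_mod_cast this
  · have h1 : (|(η : ℝ)|) ≤ (P : ℝ) * h := by
      have h2 : (η : ℝ) = ∑ e ∈ H, ((e.card : ℝ) - a1) * ((e.card : ℝ) - a2) := by
        rw [hη]; push_cast; rfl
      have h3 : ∑ e ∈ H, ((e.card : ℝ) - a1) * ((e.card : ℝ) - a2) =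
          ∑ e ∈ H.filter (fun e => e.card ≠ a1 ∧ e.card ≠ a2),
            ((e.card : ℝ) - a1) * ((e.card : ℝ) - a2) := by
        symm
        apply Finset.sum_filter_of_ne
        intro e _ hne
        constructor
        · intro hc; apply hne; rw [hc]; simp
        · intro hc; apply hne; rw [hc]; simp
      rw [h2, h3]
      refine (Finset.abs_sum_le_sum_abs _ _).trans ?_
      refine (Finset.sum_le_sum (g := fun _ => (P : ℝ)) ?_).trans ?_
      · intro e he
        have he' := hkw e (Finset.mem_filter.1 he).1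
        rw [abs_mul]
        have c1 : |(e.card : ℝ) - a1| ≤ 2 * L := by
          have t1 := abs_le.1 he'
          have t2 := abs_le.1 hb1
          rw [abs_le]; constructor <;> linarith [t1.1, t1.2, t2.1, t2.2]
        have c2 : |(e.card : ℝ) - a2| ≤ 2 * L := by
          have t1 := abs_le.1 he'
          have t2 := abs_le.1 hb2
          rw [abs_le]; constructor <;> linarith [t1.1, t1.2, t2.1, t2.2]
        calc |(e.card : ℝ) - a1| * |(e.card : ℝ) - a2| ≤ (2 * L) * (2 * L) :=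
              mul_le_mul c1 c2 (abs_nonneg _) (by linarith)
          _ = (2 * L) ^ 2 := by ring
          _ ≤ P := hPL2
      · rw [Finset.sum_const, nsmul_eq_mul, mul_comm]
        have : ((H.filter (fun e => e.card ≠ a1 ∧ e.card ≠ a2)).card : ℝ) ≤ h := by
          exact_mod_cast hah
        exact mul_le_mul_of_nonneg_left this (Nat.cast_nonneg _)
    exact_mod_cast h1
  · have hid := ident hL (a1 : ℤ) (a2 : ℤ)
    rw [← hη, Fintype.card_fin] at hid
    refine ⟨∑ e ∈ H, (e.card : ℤ), ?_⟩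
    have e1 : (m : ℤ) + ((a1 : ℤ) - m) = a1 := by ring
    have e2 : (m : ℤ) + ((a2 : ℤ) - m) = a2 := by ring
    have e3 : (m : ℤ) + (q - m) = q := by ring
    rw [e1, e2, e3, ← hb, hid]
    ring

end Pool.Agent.Lib_helper1.PBD
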