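import Pool.Agent.Lib_helper1.PBD.Asm

set_option autoImplicit false

namespace Pool.Agent.Lib_helper1.PBD

open Finset

theorem Tcount (P N : ℕ) (i1 i2 j β η : ℤ) (h1 : |i1| ≤ P) (h2 : |i2| ≤ P) :
    ((Icc 1 N).filter (fun n : ℕ => (2 * P + 2) ^ 2 ≤ n ∧
      (2 * (Nat.sqrt n : ℤ) + i1 + i2 - 1) ∣ (n : ℤ) ^ 2 - n +
        (((Nat.sqrt n : ℤ) + i1) * ((Nat.sqrt n : ℤ) + i2) *
          (((Nat.sqrt n : ℤ) + j) ^ 2 + ((Nat.sqrt n : ℤ) + j) + 1 + β) - η))).card ≤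
      ∑ κ ∈ Icc 1 (2 * Nat.sqrt N + 2 * P), G κ := by
  have h1' := abs_le.1 h1
  have h2' := abs_le.1 h2
  set T := ((Icc 1 N).filter (fun n : ℕ => (2 * P + 2) ^ 2 ≤ n ∧
      (2 * (Nat.sqrt n : ℤ) + i1 + i2 - 1) ∣ (n : ℤ) ^ 2 - n +
        (((Nat.sqrt n : ℤ) + i1) * ((Nat.sqrt n : ℤ) + i2) *
          (((Nat.sqrt n : ℤ) + j) ^ 2 + ((Nat.sqrt n : ℤ) + j) + 1 + β) - η))) with hT
  set φ : ℕ → ℕ := fun m => (2 * (m : ℤ) + i1 + i2 - 1).toNat with hφ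
  set c : ℕ → ℤ := fun m => ((m : ℤ) + i1) * ((m : ℤ) + i2) *
          (((m : ℤ) + j) ^ 2 + ((m : ℤ) + j) + 1 + β) - η with hc
  set U : ℕ → Finset ℕ := fun m => (Ico (m * m) (m * m + (2 * m + 1))).filter
    (fun n : ℕ => (φ m : ℤ) ∣ (n : ℤ) ^ 2 - n + c m) with hU
  have hφm : ∀ m, 2 * P + 2 ≤ m → ((φ m : ℕ) : ℤ) = 2 * (m : ℤ) + i1 + i2 - 1 ∧ m + 1 ≤ φ m := by
    intro m hm
    have hm' : (2 * (P : ℤ) + 2) ≤ m := by exact_mod_cast hm
    have e1 : ((φ m : ℕ) : ℤ) = 2 * (m : ℤ) + i1 + i2 - 1 := by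
      simp only [hφ]
      apply Int.toNat_of_nonneg
      linarith [h1'.1, h2'.1]
    refine ⟨e1, ?_⟩
    have : ((m : ℤ) + 1) ≤ (φ m : ℤ) := by
      rw [e1]; linarith [h1'.1, h2'.1]
    exact_mod_cast this
  have hcov : T ⊆ (Icc (2 * P + 2) (Nat.sqrt N)).biUnion U := by
    intro n hn
    rw [hT, Finset.mem_filter, Finset.mem_Icc] at hn
    obtain ⟨⟨hn1, hnN⟩, hnP, hdvd⟩ := hn
    have hm : 2 * P + 2 ≤ Nat.sqrt n := by
      rw [Nat.le_sqrt]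
      calc (2 * P + 2) * (2 * P + 2) = (2 * P + 2) ^ 2 := by ring
        _ ≤ n := hnP
    rw [Finset.mem_biUnion]
    refine ⟨Nat.sqrt n, Finset.mem_Icc.2 ⟨hm, Nat.sqrt_le_sqrt hnN⟩, ?_⟩
    simp only [hU]
    rw [Finset.mem_filter, Finset.mem_Ico]
    refine ⟨⟨Nat.sqrt_le n, ?_⟩, ?_⟩
    · have := Nat.lt_succ_sqrt n
      calc n < (Nat.sqrt n).succ * (Nat.sqrt n).succ := this
        _ = Nat.sqrt n * Nat.sqrt n + (2 * Nat.sqrt n + 1) := by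
          simp only [Nat.succ_eq_add_one]; ring
    · rw [(hφm _ hm).1]
      exact hdvd
  refine (Finset.card_le_card hcov).trans (Finset.card_biUnion_le.trans ?_)
  have hG : ∀ m ∈ Icc (2 * P + 2) (Nat.sqrt N), (U m).card ≤ G (φ m) := by
    intro m hm
    rw [Finset.mem_Icc] at hm
    have h3 := (hφm m hm.1).2
    exact quad_count (m * m) (2 * m + 1) (φ m) (c m) (by omega) (by omega)
  refine (Finset.sum_le_sum hG).trans ?_
  have hinj : Set.InjOn φ (Icc (2 * P + 2) (Nat.sqrt N)) := by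
    intro a ha b hb hab
    rw [Finset.mem_coe, Finset.mem_Icc] at ha hb
    have e1 := (hφm a ha.1).1
    have e2 := (hφm b hb.1).1
    have e3 : ((φ a : ℕ) : ℤ) = φ b := by exact_mod_cast hab
    omega
  rw [← Finset.sum_image (f := G) hinj]
  apply Finset.sum_le_sum_of_subset
  intro κ hκ
  rw [Finset.mem_image] at hκ
  obtain ⟨m, hm, rfl⟩ := hκ
  rw [Finset.mem_Icc] at hm ⊢
  have e1 := hφm m hm.1
  constructor
  · omega
  · have h3 : ((φ m : ℕ) : ℤ) ≤ 2 * Nat.sqrt N + 2 * P := by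
      rw [e1.1]
      have : (m : ℤ) ≤ Nat.sqrt N := by exact_mod_cast hm.2
      linarith [h1'.2, h2'.2]
    exact_mod_cast h3

theorem real_bound (P n1 N h : ℕ) (hN : 2 ≤ N) :
    (n1 : ℝ) + ((2 * P + 1) ^ 4 * (2 * (P * h) + 1)) *
      (3 * ((2 * Nat.sqrt N + 2 * P : ℕ) : ℝ) * (1 + Real.log ((2 * Nat.sqrt N + 2 * P : ℕ) : ℝ)) ^ 2) ≤
    ((n1 : ℝ) / Real.log 2 ^ 2 + (2 * P + 1) ^ 5 * (3 * (2 + 2 * P)) *
      ((1 + Real.log (2 + 2 * P)) / Real.log 2 + 1) ^ 2) * (h + 1) *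
      Real.sqrt N * Real.log N ^ 2 := by
  have hN' : (2 : ℝ) ≤ N := by exact_mod_cast hN
  have hl2 : 0 < Real.log 2 := Real.log_pos (by norm_num)
  have hlN : Real.log 2 ≤ Real.log N := Real.log_le_log (by norm_num) hN'
  have hs1 : 1 ≤ Real.sqrt N := by
    rw [Real.one_le_sqrt]; linarith
  have hs0 : 0 < Real.sqrt N := by linarith
  have hh1 : (1 : ℝ) ≤ h + 1 := by
    have : (0 : ℝ) ≤ h := Nat.cast_nonneg _
    linarith
  have hP0 : (0 : ℝ) ≤ P := Nat.cast_nonneg _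
  -- first term
  have t1 : (n1 : ℝ) ≤ (n1 : ℝ) / Real.log 2 ^ 2 * (h + 1) * Real.sqrt N * Real.log N ^ 2 := by
    have e1 : (n1 : ℝ) = (n1 : ℝ) / Real.log 2 ^ 2 * 1 * 1 * Real.log 2 ^ 2 := by
      field_simp
    calc (n1 : ℝ) = (n1 : ℝ) / Real.log 2 ^ 2 * 1 * 1 * Real.log 2 ^ 2 := e1
      _ ≤ (n1 : ℝ) / Real.log 2 ^ 2 * (h + 1) * Real.sqrt N * Real.log N ^ 2 := by gcongr
  -- second term
  set X : ℝ := ((2 * Nat.sqrt N + 2 * P : ℕ) : ℝ) with hX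
  have hXle : X ≤ (2 + 2 * P) * Real.sqrt N := by
    rw [hX]
    push_cast
    have h1 : (Nat.sqrt N : ℝ) ≤ Real.sqrt N := Real.nat_sqrt_le_real_sqrt
    nlinarith
  have hX1 : 1 ≤ X := by
    rw [hX]
    have : 1 ≤ Nat.sqrt N := Nat.le_sqrt.2 (by omega)
    have h2 : 1 ≤ 2 * Nat.sqrt N + 2 * P := by omega
    exact_mod_cast h2
  have hlogX : 1 + Real.log X ≤ ((1 + Real.log (2 + 2 * P)) / Real.log 2 + 1) * Real.log N := by
    have h1 : Real.log X ≤ Real.log (2 + 2 * P) + Real.log N / 2 := by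
      calc Real.log X ≤ Real.log ((2 + 2 * P) * Real.sqrt N) := Real.log_le_log (by linarith) hXle
        _ = Real.log (2 + 2 * P) + Real.log (Real.sqrt N) := by
            rw [Real.log_mul (by positivity) hs0.ne']
        _ = Real.log (2 + 2 * P) + Real.log N / 2 := by
            rw [Real.log_sqrt (by linarith)]
    have h2 : 0 ≤ Real.log (2 + 2 * P) := Real.log_nonneg (by linarith)
    have h3 : 1 + Real.log (2 + 2 * P) ≤ (1 + Real.log (2 + 2 * P)) / Real.log 2 * Real.log N := by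
      rw [div_mul_eq_mul_div, le_div_iff₀ hl2]
      apply mul_le_mul_of_nonneg_left hlN (by linarith)
    have h4 : 0 < Real.log N := by linarith
    linarith
  have hlogX0 : 0 ≤ 1 + Real.log X := by
    have := Real.log_nonneg hX1
    linarith
  have t2 : ((2 * P + 1) ^ 4 * (2 * (P * h) + 1)) * (3 * X * (1 + Real.log X) ^ 2) ≤
      (2 * P + 1) ^ 5 * (3 * (2 + 2 * P)) *
      ((1 + Real.log (2 + 2 * P)) / Real.log 2 + 1) ^ 2 * (h + 1) * Real.sqrt N * Real.log N ^ 2 := by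
    have e1 : ((2 * (P : ℝ) + 1) ^ 4 * (2 * (P * h) + 1)) ≤ (2 * P + 1) ^ 5 * (h + 1) := by
      have : (2 * ((P : ℝ) * h) + 1) ≤ (2 * P + 1) * (h + 1) := by
        have : (0 : ℝ) ≤ h := Nat.cast_nonneg _
        nlinarith
      calc ((2 * (P : ℝ) + 1) ^ 4 * (2 * ((P : ℝ) * (h : ℝ)) + 1)) ≤
            (2 * (P : ℝ) + 1) ^ 4 * ((2 * (P : ℝ) + 1) * ((h : ℝ) + 1)) := by
            gcongr
        _ = (2 * (P : ℝ) + 1) ^ 5 * ((h : ℝ) + 1) := by ring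
    have e2 : 3 * X * (1 + Real.log X) ^ 2 ≤ 3 * ((2 + 2 * P) * Real.sqrt N) *
        (((1 + Real.log (2 + 2 * P)) / Real.log 2 + 1) * Real.log N) ^ 2 := by
      gcongr
    calc ((2 * (P : ℝ) + 1) ^ 4 * (2 * (P * h) + 1)) * (3 * X * (1 + Real.log X) ^ 2)
        ≤ ((2 * P + 1) ^ 5 * (h + 1)) * (3 * ((2 + 2 * P) * Real.sqrt N) *
        (((1 + Real.log (2 + 2 * P)) / Real.log 2 + 1) * Real.log N) ^ 2) := by
          apply mul_le_mul e1 e2 (by positivity) (by positivity)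
      _ = _ := by ring
  calc _ ≤ (n1 : ℝ) / Real.log 2 ^ 2 * (h + 1) * Real.sqrt N * Real.log N ^ 2 +
      (2 * P + 1) ^ 5 * (3 * (2 + 2 * P)) *
      ((1 + Real.log (2 + 2 * P)) / Real.log 2 + 1) ^ 2 * (h + 1) * Real.sqrt N * Real.log N ^ 2 :=
        add_le_add t1 t2
    _ = _ := by ring

end Pool.Agent.Lib_helper1.PBD
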