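import Mathlib
import Pool.Prelude.Def_H_02624fa1

set_option autoImplicit false
set_option linter.unusedSectionVars false

namespace Pool.Agent.Lib_helper1.PBD

open Finset

variable {V : Type*} [Fintype V] [DecidableEq V]

/-- number of blocks through `x` -/
def rep (H : Finset (Finset V)) (x : V) : ℕ := (H.filter (fun e => x ∈ e)).card

/-- any two points lie on exactly one block -/
def Lin (H : Finset (Finset V)) : Prop :=
  ∀ x y, x ≠ y → ∃! e, e ∈ H ∧ x ∈ e ∧ y ∈ e

theorem lin_of_design {H : Finset (Finset V)} (h : H.IsPairwiseBalancedDesign) : Lin H := by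
  intro x y hxy
  obtain ⟨e, he, hu⟩ := h.2 {x, y} (Finset.card_pair hxy)
  refine ⟨e, ⟨he.1, he.2 (by simp), he.2 (by simp)⟩, ?_⟩
  rintro e' ⟨h1, h2, h3⟩
  apply hu
  refine ⟨h1, ?_⟩
  intro z hz
  simp only [mem_insert, mem_singleton] at hz
  rcases hz with rfl | rfl <;> assumption

theorem card_through {H : Finset (Finset V)} (hL : Lin H) {x y : V} (hxy : x ≠ y) :
    (H.filter (fun e => x ∈ e ∧ y ∈ e)).card = 1 := by
  obtain ⟨e, he, hu⟩ := hL x y hxy
  rw [Finset.card_eq_one]
  refine ⟨e, ?_⟩
  ext e'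
  simp only [mem_filter, mem_singleton]
  constructor
  · rintro ⟨h1, h2⟩
    exact hu e' ⟨h1, h2⟩
  · rintro rfl
    exact ⟨he.1, he.2⟩

theorem lin_sum (H : Finset (Finset V)) (f : V → ℝ) :
    ∑ e ∈ H, ∑ y ∈ e, f y = ∑ x, (rep H x : ℝ) * f x := by
  have h1 : ∀ e ∈ H, ∑ y ∈ e, f y = ∑ x, if x ∈ e then f x else 0 := by
    intro e _
    rw [← Finset.sum_filter]
    congr 1
    ext; simp
  rw [Finset.sum_congr rfl h1, Finset.sum_comm]
  apply Finset.sum_congr rfl
  intro x _
  rw [← Finset.sum_filter, Finset.sum_const, nsmul_eq_mul]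
  rfl

theorem bilin_sum {H : Finset (Finset V)} (hL : Lin H) (f g : V → ℝ) :
    ∑ e ∈ H, (∑ y ∈ e, f y) * (∑ z ∈ e, g z) =
      ∑ x, ((rep H x : ℝ) - 1) * (f x * g x) + (∑ x, f x) * (∑ x, g x) := by
  have h1 : ∀ (f : V → ℝ) (e : Finset V), ∑ y ∈ e, f y = ∑ x, if x ∈ e then f x else 0 := by
    intro f e
    rw [← Finset.sum_filter]
    congr 1
    ext; simp
  have h2 : ∀ e ∈ H, (∑ y ∈ e, f y) * (∑ z ∈ e, g z) =
      ∑ y, ∑ z, if (y ∈ e ∧ z ∈ e) then f y * g z else 0 := by
    intro e _
    rw [h1 f, h1 g, Finset.sum_mul_sum]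
    apply Finset.sum_congr rfl
    intro y _
    apply Finset.sum_congr rfl
    intro z _
    by_cases hy : y ∈ e <;> by_cases hz : z ∈ e <;> simp [hy, hz]
  rw [Finset.sum_congr rfl h2, Finset.sum_comm]
  have h3 : ∀ y : V, ∑ e ∈ H, ∑ z, (if (y ∈ e ∧ z ∈ e) then f y * g z else 0) =
      ((rep H y : ℝ) - 1) * (f y * g y) + f y * ∑ z, g z := by
    intro y
    rw [Finset.sum_comm]
    have h4 : ∀ z, ∑ e ∈ H, (if (y ∈ e ∧ z ∈ e) then f y * g z else 0) =
        f y * g z + if z = y then ((rep H y : ℝ) - 1) * (f y * g y) else 0 := by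
      intro z
      rw [← Finset.sum_filter, Finset.sum_const, nsmul_eq_mul]
      by_cases hz : z = y
      · subst hz
        simp only [and_self, if_true]
        unfold rep
        ring
      · rw [card_through hL (Ne.symm hz), if_neg hz]
        simp
    rw [Finset.sum_congr rfl (fun z _ => h4 z), Finset.sum_add_distrib, ← Finset.mul_sum]
    simp only [Finset.sum_ite_eq', Finset.mem_univ, if_true]
    ring
  rw [Finset.sum_congr rfl (fun y _ => h3 y), Finset.sum_add_distrib, ← Finset.sum_mul]

theorem inter_card_le {H : Finset (Finset V)} (hL : Lin H) {e e' : Finset V} (he : e ∈ H)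
    (he' : e' ∈ H) (hne : e ≠ e') : (e ∩ e').card ≤ 1 := by
  rw [Finset.card_le_one]
  intro a ha b hb
  by_contra hab
  rw [mem_inter] at ha hb
  obtain ⟨e0, -, hu⟩ := hL a b hab
  exact hne ((hu e ⟨he, ha.1, hb.1⟩).trans (hu e' ⟨he', ha.2, hb.2⟩).symm)

/-- sum of the replication numbers over a block -/
def Rs (H : Finset (Finset V)) (e : Finset V) : ℝ := ∑ y ∈ e, (rep H y : ℝ)

/-- sum of all replication numbers -/
def Ss (H : Finset (Finset V)) : ℝ := ∑ x, (rep H x : ℝ)

/-- number of blocks disjoint from `e` -/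
def Dd (H : Finset (Finset V)) (e : Finset V) : ℝ := ((H.filter (fun e' => Disjoint e e')).card : ℝ)

/-- total size of the blocks disjoint from `e` -/
def Kd (H : Finset (Finset V)) (e : Finset V) : ℝ :=
  ∑ e' ∈ H.filter (fun e' => Disjoint e e'), (e'.card : ℝ)

theorem sum_card (H : Finset (Finset V)) : ∑ e ∈ H, (e.card : ℝ) = Ss H := by
  have := lin_sum H (fun _ => 1)
  simpa [Ss] using this

theorem sum_ind (e e' : Finset V) : ∑ y ∈ e', (if y ∈ e then (1 : ℝ) else 0) = ((e ∩ e').card : ℝ) := by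
  rw [← Finset.sum_filter, Finset.sum_const, nsmul_eq_mul, mul_one]
  congr 2
  ext; simp [and_comm]

theorem sum_ind_univ (e : Finset V) (g : V → ℝ) :
    ∑ y, (if y ∈ e then (1 : ℝ) else 0) * g y = ∑ y ∈ e, g y := by
  simp only [ite_mul, one_mul, zero_mul]
  rw [← Finset.sum_filter]
  congr 1
  ext; simp

theorem inter_formula {H : Finset (Finset V)} (hL : Lin H) {e e' : Finset V} (he : e ∈ H)
    (hne : e.Nonempty) (he' : e' ∈ H) :
    ((e ∩ e').card : ℝ) = 1 - (if Disjoint e e' then 1 else 0) +
      (if e' = e then ((e.card : ℝ) - 1) else 0) := by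
  by_cases h : e' = e
  · subst h
    simp [hne.ne_empty]
  · rw [if_neg h]
    by_cases hd : Disjoint e e'
    · rw [if_pos hd]
      rw [Finset.disjoint_iff_inter_eq_empty] at hd
      simp [hd]
    · rw [if_neg hd]
      have h1 := inter_card_le hL he he' (Ne.symm h)
      have h2 : 0 < (e ∩ e').card := by
        rw [Finset.card_pos]
        exact Finset.not_disjoint_iff_nonempty_inter.1 hd
      have : (e ∩ e').card = 1 := by omega
      rw [this]; norm_num

theorem Dd_eq {H : Finset (Finset V)} (hL : Lin H) {e : Finset V} (he : e ∈ H)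
    (hne : e.Nonempty) : Dd H e = (H.card : ℝ) - 1 + e.card - Rs H e := by
  have h1 : ∑ e' ∈ H, ((e ∩ e').card : ℝ) = Rs H e := by
    have := lin_sum H (fun y => if y ∈ e then (1 : ℝ) else 0)
    simp only [sum_ind] at this
    rw [this]
    rw [Rs, ← sum_ind_univ e (fun y => (rep H y : ℝ))]
    apply Finset.sum_congr rfl
    intro x _
    ring
  have h2 : ∑ e' ∈ H, ((e ∩ e').card : ℝ) = (H.card : ℝ) - Dd H e + (e.card - 1) := by
    rw [Finset.sum_congr rfl (fun e' he' => inter_formula hL he hne he')]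
    rw [Finset.sum_add_distrib, Finset.sum_sub_distrib]
    simp only [Finset.sum_const, nsmul_eq_mul, mul_one, Finset.sum_ite_eq', he, if_true]
    congr 2
    rw [← Finset.sum_filter, Finset.sum_const, nsmul_eq_mul, mul_one]
    rfl
  linarith

theorem Kd_eq {H : Finset (Finset V)} (hL : Lin H) {e : Finset V} (he : e ∈ H)
    (hne : e.Nonempty) :
    Kd H e = Ss H - Rs H e + (e.card : ℝ) ^ 2 - e.card * (Fintype.card V : ℝ) := by
  have h1 : ∑ e' ∈ H, ((e ∩ e').card : ℝ) * e'.card = Rs H e - e.card + e.card * (Fintype.card V : ℝ) := by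
    have := bilin_sum hL (fun y => if y ∈ e then (1 : ℝ) else 0) (fun _ => 1)
    simp only [sum_ind] at this
    simp only [Finset.sum_const, nsmul_eq_mul, mul_one, Finset.card_univ] at this
    rw [this]
    have h3 : ∑ x : V, ((rep H x : ℝ) - 1) * (if x ∈ e then (1:ℝ) else 0) = Rs H e - e.card := by
      have := sum_ind_univ e (fun x => (rep H x : ℝ) - 1)
      rw [Finset.sum_sub_distrib] at this
      simp only [Finset.sum_const, nsmul_eq_mul, mul_one] at this
      rw [Rs, ← this]
      apply Finset.sum_congr rfl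
      intro x _
      ring
    rw [h3]
    simp
  have h2 : ∑ e' ∈ H, ((e ∩ e').card : ℝ) * e'.card = Ss H - Kd H e + (e.card - 1) * e.card := by
    have h4 : ∀ e' ∈ H, ((e ∩ e').card : ℝ) * e'.card =
        (e'.card : ℝ) - (if Disjoint e e' then (e'.card : ℝ) else 0) +
          (if e' = e then ((e.card : ℝ) - 1) * e.card else 0) := by
      intro e' he'
      rw [inter_formula hL he hne he']
      by_cases h : e' = e
      · subst h
        simp [hne.ne_empty]
        ring
      · by_cases hd : Disjoint e e' <;> simp [hd, h]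
    rw [Finset.sum_congr rfl h4, Finset.sum_add_distrib, Finset.sum_sub_distrib, sum_card]
    simp only [Finset.sum_ite_eq', he, if_true]
    congr 2
    rw [← Finset.sum_filter]
    rfl
  nlinarith

theorem card_le_rep {H : Finset (Finset V)} (hL : Lin H) {e : Finset V} (he : e ∈ H) {x : V}
    (hx : x ∉ e) : e.card ≤ rep H x := by
  have h1 := bilin_sum hL (fun y => if y ∈ e then (1 : ℝ) else 0)
    (fun y => if y ∈ ({x} : Finset V) then (1 : ℝ) else 0)
  simp only [sum_ind] at h1
  have h2 : ∑ y : V, ((rep H y : ℝ) - 1) *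
      ((if y ∈ e then (1:ℝ) else 0) * (if y ∈ ({x} : Finset V) then (1:ℝ) else 0)) = 0 := by
    apply Finset.sum_eq_zero
    intro y _
    by_cases hy : y ∈ e
    · have : y ∉ ({x} : Finset V) := by
        intro h
        rw [mem_singleton] at h
        exact hx (h ▸ hy)
      rw [if_neg this]; simp
    · rw [if_neg hy]; simp
  rw [h2] at h1
  rw [Finset.inter_univ, Finset.inter_univ, Finset.card_singleton, Nat.cast_one] at h1
  have h5 : ∑ e' ∈ H, ((e ∩ e').card : ℝ) * ((({x} : Finset V) ∩ e').card : ℝ) ≤ rep H x := by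
    have h6 : ∀ e' ∈ H, ((e ∩ e').card : ℝ) * ((({x} : Finset V) ∩ e').card : ℝ) ≤
        if x ∈ e' then 1 else 0 := by
      intro e' he'
      by_cases hxe : x ∈ e'
      · rw [if_pos hxe]
        have h7 : (({x} : Finset V) ∩ e') = {x} := by
          ext y; simp only [mem_inter, mem_singleton]
          constructor
          · exact fun h => h.1
          · rintro rfl; exact ⟨rfl, hxe⟩
        rw [h7, Finset.card_singleton, Nat.cast_one, mul_one]
        have hne : e ≠ e' := by rintro rfl; exact hx hxe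
        exact_mod_cast inter_card_le hL he he' hne
      · rw [if_neg hxe]
        have h7 : (({x} : Finset V) ∩ e') = ∅ := by
          ext y; simp only [mem_inter, mem_singleton, Finset.notMem_empty, iff_false]
          rintro ⟨rfl, h⟩; exact hxe h
        rw [h7]; simp
    refine (Finset.sum_le_sum h6).trans ?_
    rw [← Finset.sum_filter, Finset.sum_const, nsmul_eq_mul, mul_one]
    exact le_rfl
  rw [h1] at h5
  have : (e.card : ℝ) ≤ rep H x := by linarith
  exact_mod_cast this

theorem sum_sq_card {H : Finset (Finset V)} (hL : Lin H) :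
    ∑ e ∈ H, (e.card : ℝ) ^ 2 = Ss H + (Fintype.card V : ℝ) ^ 2 - Fintype.card V := by
  have := bilin_sum hL (fun _ => (1:ℝ)) (fun _ => 1)
  simp only [Finset.sum_const, nsmul_eq_mul, mul_one, Finset.card_univ] at this
  rw [Finset.sum_sub_distrib] at this
  simp only [Finset.sum_const, nsmul_eq_mul, mul_one, Finset.card_univ] at this
  have h2 : ∑ e ∈ H, (e.card : ℝ) ^ 2 = ∑ e ∈ H, (e.card : ℝ) * e.card := by
    apply Finset.sum_congr rfl
    intro e _; ring
  rw [h2, this, Ss]; ring

theorem sum_card_through {H : Finset (Finset V)} (hL : Lin H) (x : V) :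
    ∑ e ∈ H.filter (fun e => x ∈ e), (e.card : ℝ) = rep H x - 1 + Fintype.card V := by
  have := bilin_sum hL (fun y => if y ∈ ({x} : Finset V) then (1 : ℝ) else 0) (fun _ => 1)
  simp only [Finset.sum_const, nsmul_eq_mul, mul_one, Finset.card_univ, sum_ind] at this
  have h5 : ∑ y : V, ((rep H y : ℝ) - 1) * (if y ∈ ({x} : Finset V) then (1:ℝ) else 0) = rep H x - 1 := by
    have := sum_ind_univ ({x} : Finset V) (fun y => (rep H y : ℝ) - 1)
    rw [Finset.sum_singleton] at this
    rw [← this]
    apply Finset.sum_congr rfl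
    intro y _; ring
  rw [Finset.inter_univ, Finset.card_singleton, Nat.cast_one, h5, one_mul] at this
  rw [← this, Finset.sum_filter]
  apply Finset.sum_congr rfl
  intro e _
  by_cases hxe : x ∈ e
  · rw [if_pos hxe]
    have h7 : (({x} : Finset V) ∩ e) = {x} := by
      ext y; simp only [mem_inter, mem_singleton]
      constructor
      · exact fun h => h.1
      · rintro rfl; exact ⟨rfl, hxe⟩
    rw [h7]; simp
  · rw [if_neg hxe]
    have h7 : (({x} : Finset V) ∩ e) = ∅ := by
      ext y; simp only [mem_inter, mem_singleton, Finset.notMem_empty, iff_false]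
      rintro ⟨rfl, h⟩; exact hxe h
    rw [h7]; simp

end Pool.Agent.Lib_helper1.PBD
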