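import Pool.Agent.Lib_helper1.PBD.Inc

set_option autoImplicit false
set_option linter.unusedSectionVars false

namespace Pool.Agent.Lib_helper1.PBD

open Finset

variable {V : Type*} [Fintype V] [DecidableEq V]

theorem Kd_sub {H : Finset (Finset V)} {w L : ℝ}
    (hk : ∀ e ∈ H, |(e.card : ℝ) - w| ≤ L) (e : Finset V) :
    |Kd H e - w * Dd H e| ≤ L * Dd H e := by
  have h1 : Kd H e - w * Dd H e = ∑ e' ∈ H.filter (fun e' => Disjoint e e'), ((e'.card : ℝ) - w) := by
    rw [Finset.sum_sub_distrib, Finset.sum_const, nsmul_eq_mul, Kd, Dd]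
    ring
  rw [h1]
  refine (Finset.abs_sum_le_sum_abs _ _).trans ?_
  refine (Finset.sum_le_sum (g := fun _ => L) ?_).trans ?_
  · intro e' he'
    exact hk e' (Finset.mem_filter.1 he').1
  · rw [Finset.sum_const, nsmul_eq_mul, Dd]
    linarith [mul_comm (L : ℝ) ((H.filter (fun e' => Disjoint e e')).card : ℝ)]

theorem Kd_le {H : Finset (Finset V)} (hL : Lin H) {w L : ℝ} (hw : w ^ 2 = Fintype.card V)
    (hL0 : 0 ≤ L)
    (hk : ∀ e ∈ H, |(e.card : ℝ) - w| ≤ L) (hr : ∀ x, |(rep H x : ℝ) - w| ≤ L)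
    {e : Finset V} (he : e ∈ H) (hne : e.Nonempty) : Kd H e ≤ 2 * L * w ^ 2 := by
  have h1 := Kd_eq hL he hne
  have h2 : Ss H - Rs H e = ∑ x ∈ eᶜ, (rep H x : ℝ) := by
    have := Finset.sum_add_sum_compl e (fun x => (rep H x : ℝ))
    rw [Ss, Rs]; linarith
  have h3 : ∑ x ∈ eᶜ, (rep H x : ℝ) ≤ ((Fintype.card V : ℝ) - e.card) * (w + L) := by
    refine (Finset.sum_le_sum (g := fun _ => w + L) ?_).trans ?_
    · intro x _
      have := (abs_le.1 (hr x)).2
      linarith
    · rw [Finset.sum_const, nsmul_eq_mul, Finset.card_compl, Nat.cast_sub (Finset.card_le_univ e)]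
  have h4 := abs_le.1 (hk e he)
  have h5 : (e.card : ℝ) ≤ Fintype.card V := by exact_mod_cast Finset.card_le_univ e
  have h6 : (0 : ℝ) ≤ e.card := Nat.cast_nonneg _
  rw [hw]
  nlinarith [mul_nonneg (sub_nonneg.2 h5) (show (0:ℝ) ≤ e.card - w + L by linarith),
    mul_nonneg hL0 h6]

theorem F_formula (w b k S n R F μ κ m' θ A : ℝ) (hn : n = w ^ 2)
    (hθ : θ = (S - R + k ^ 2 - k * n) - w * (b - 1 + k - R)) (hF : F = R - μ * k)
    (hκ : κ = k - w) (hm : m' = μ - w) (hA : A = w * (b - 1) - S + w ^ 2 - m' * w * (w - 1)) :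
    (w - 1) * F = A + (θ - κ ^ 2 - κ * m' * (w - 1)) := by
  subst hA hF hκ hm hθ hn
  ring

theorem b_formula (w b k S n R F κ ρ σ θ r0 q : ℝ) (hw0 : w ≠ 0) (hn : n = w ^ 2)
    (hθ : θ = (S - R + k ^ 2 - k * n) - w * (b - 1 + k - R)) (hF : F = R - S / n * k)
    (hκ : κ = k - w) (hρ : ρ = r0 - w) (hσ : σ = S - n * r0) (hq : q = r0 - 1) :
    w * (b - (q ^ 2 + q + 1)) = w * (ρ * κ - ρ ^ 2) + (κ ^ 2 - ρ * κ) +
      ((w - 1) * σ * k / w ^ 2 + (w - 1) * F + σ - θ) := by
  subst hF hκ hρ hσ hq hn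
  rw [hθ]
  field_simp
  ring

/-- The number of blocks takes boundedly many values. -/
theorem key {H : Finset (Finset V)} (hL : Lin H) {w L : ℝ} (hw : w ^ 2 = Fintype.card V)
    (hL1 : 1 ≤ L) (hwL : 4 * L + 4 ≤ w) (hH : H.Nonempty)
    (hk : ∀ e ∈ H, |(e.card : ℝ) - w| ≤ L) (hr : ∀ x, |(rep H x : ℝ) - w| ≤ L) :
    ∃ q β : ℤ, |(q : ℝ) - w| ≤ L + 2 ∧ |(β : ℝ)| ≤ 200000 * L ^ 4 ∧
      (H.card : ℤ) = q ^ 2 + q + 1 + β := by
  have hw0 : 0 < w := by linarith
  have hne : ∀ e ∈ H, e.Nonempty := by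
    intro e he
    rw [← Finset.card_pos]
    have := (abs_le.1 (hk e he)).1
    have h2 : (0 : ℝ) < e.card := by linarith
    exact_mod_cast h2
  set n : ℝ := (Fintype.card V : ℝ) with hn
  have hn0 : 0 < n := by rw [← hw]; positivity
  set S : ℝ := Ss H with hS
  set b : ℝ := (H.card : ℝ) with hb
  set μ : ℝ := S / n with hμ
  have hSμ : S = μ * n := by rw [hμ]; field_simp
  -- bounds of S
  have hS1 : S ≤ n * (w + L) := by
    rw [hS, Ss]
    refine (Finset.sum_le_sum (g := fun _ => w + L) ?_).trans ?_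
    · intro x _
      have := (abs_le.1 (hr x)).2
      linarith
    · rw [Finset.sum_const, nsmul_eq_mul, Finset.card_univ]
  have hS2 : n * (w - L) ≤ S := by
    rw [hS, Ss]
    refine le_trans ?_ (Finset.sum_le_sum (f := fun _ => w - L) ?_)
    · rw [Finset.sum_const, nsmul_eq_mul, Finset.card_univ]
    · intro x _
      have := (abs_le.1 (hr x)).1
      linarith
  have hμw : |μ - w| ≤ L := by
    rw [abs_le]
    constructor
    · have : w - L ≤ μ := by rw [hμ, le_div_iff₀ hn0]; linarith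
      linarith
    · have : μ ≤ w + L := by rw [hμ, div_le_iff₀ hn0]; linarith
      linarith
  -- bounds of b
  have hS3 : S ≤ b * (w + L) := by
    rw [hS, ← sum_card]
    refine (Finset.sum_le_sum (g := fun _ => w + L) ?_).trans ?_
    · intro e he
      have := (abs_le.1 (hk e he)).2
      linarith
    · rw [Finset.sum_const, nsmul_eq_mul]
  have hS4 : b * (w - L) ≤ S := by
    rw [hS, ← sum_card]
    refine le_trans ?_ (Finset.sum_le_sum (f := fun _ => w - L) ?_)
    · rw [Finset.sum_const, nsmul_eq_mul]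
    · intro e he
      have := (abs_le.1 (hk e he)).1
      linarith
  have hb0 : 0 < b := by
    rw [hb]
    exact_mod_cast Finset.card_pos.2 hH
  have hb1 : w ^ 2 ≤ 3 * b := by
    have h1 : n * (w - L) ≤ b * (w + L) := hS2.trans hS3
    rw [← hw] at h1
    by_contra hcon
    push Not at hcon
    nlinarith [mul_pos hw0 hw0, mul_pos (mul_pos hw0 hw0) (show (0:ℝ) < w - 2 * L by linarith)]
  have hb2 : b ≤ 3 * w ^ 2 := by
    have h1 : b * (w - L) ≤ n * (w + L) := hS4.trans hS1
    rw [← hw] at h1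
    by_contra hcon
    push Not at hcon
    nlinarith [mul_pos hw0 hw0, mul_pos (mul_pos hw0 hw0) (show (0:ℝ) < w - 2 * L by linarith)]
  -- theta
  set θ : Finset V → ℝ := fun e => Kd H e - w * Dd H e with hθ
  have hθb : ∀ e ∈ H, |θ e| ≤ 4 * L ^ 2 * w := by
    intro e he
    have h1 := Kd_sub hk e
    have h2 := Kd_le hL hw (by linarith) hk hr he (hne e he)
    have h3 : 0 ≤ Dd H e := Nat.cast_nonneg _
    have h4 : Dd H e ≤ 4 * L * w := by
      have h5 := (abs_le.1 h1).1
      have h6 : (w - L) * Dd H e ≤ 2 * L * w ^ 2 := by nlinarith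
      by_contra hcon
      push Not at hcon
      nlinarith [mul_pos hw0 (show (0:ℝ) < L by linarith), mul_pos hw0 hw0]
    calc |θ e| ≤ L * Dd H e := h1
      _ ≤ L * (4 * L * w) := by gcongr
      _ = 4 * L ^ 2 * w := by ring
  set F : Finset V → ℝ := fun e => Rs H e - μ * e.card with hF
  set f : V → ℝ := fun x => (rep H x : ℝ) - μ with hf
  have hFf : ∀ e, F e = ∑ y ∈ e, f y := by
    intro e
    simp only [hF, hf, Rs]
    rw [Finset.sum_sub_distrib, Finset.sum_const, nsmul_eq_mul]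
    ring
  have hf0 : ∑ x, f x = 0 := by
    simp only [hf]
    rw [Finset.sum_sub_distrib, Finset.sum_const, nsmul_eq_mul, Finset.card_univ]
    have : S = ∑ x, (rep H x : ℝ) := rfl
    rw [← this, hSμ]; ring
  have hfb : ∀ x, |f x| ≤ 2 * L := by
    intro x
    have h1 := abs_le.1 (hr x)
    have h2 := abs_le.1 hμw
    rw [abs_le]
    simp only [hf]
    constructor <;> linarith [h1.1, h1.2, h2.1, h2.2]
  set W : ℝ := ∑ x, f x ^ 2 with hW
  have hW0 : 0 ≤ W := Finset.sum_nonneg (fun x _ => sq_nonneg _)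
  have hW1 : W ≤ 4 * L ^ 2 * w ^ 2 := by
    rw [hW, hw]
    refine (Finset.sum_le_sum (g := fun _ => 4 * L ^ 2) ?_).trans ?_
    · intro x _
      have h1 := abs_le.1 (hfb x)
      nlinarith [h1.1, h1.2]
    · rw [Finset.sum_const, nsmul_eq_mul, Finset.card_univ, ← hn]
      linarith [mul_comm (4 * L ^ 2) n]
  have hFsum : ∑ e ∈ H, F e = W := by
    rw [Finset.sum_congr rfl (fun e _ => hFf e), lin_sum]
    have h1 : ∀ x, (rep H x : ℝ) * f x = f x ^ 2 + μ * f x := by
      intro x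
      simp only [hf]; ring
    rw [Finset.sum_congr rfl (fun x _ => h1 x), Finset.sum_add_distrib, ← Finset.mul_sum, hf0]
    simp [hW]
  have hF2sum : ∑ e ∈ H, F e ^ 2 = ∑ x, ((rep H x : ℝ) - 1) * (f x * f x) := by
    have := bilin_sum hL f f
    rw [hf0] at this
    simp only [mul_zero, add_zero] at this
    rw [← this]
    apply Finset.sum_congr rfl
    intro e _
    rw [hFf e]; ring
  set A : ℝ := w * (b - 1) - S + w ^ 2 - (μ - w) * w * (w - 1) with hA
  set θ' : Finset V → ℝ := fun e => θ e - ((e.card : ℝ) - w) ^ 2 - ((e.card : ℝ) - w) * (μ - w) * (w - 1)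
    with hθ'
  have hform : ∀ e ∈ H, (w - 1) * F e = A + θ' e := by
    intro e he
    have h1 : θ e = (S - Rs H e + (e.card : ℝ) ^ 2 - e.card * n) - w * (b - 1 + e.card - Rs H e) := by
      simp only [hθ]
      rw [Kd_eq hL he (hne e he), Dd_eq hL he (hne e he)]
    exact F_formula w b e.card S n (Rs H e) (F e) μ _ _ (θ e) A hw.symm h1 rfl rfl rfl rfl
  have hθ'b : ∀ e ∈ H, |θ' e| ≤ 5 * L ^ 2 * w := by
    intro e he
    have h1 := abs_le.1 (hθb e he)
    have h2 := hk e he
    have h3 : ((e.card : ℝ) - w) ^ 2 ≤ L ^ 2 := by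
      rw [← sq_abs]; exact pow_le_pow_left₀ (abs_nonneg _) h2 2
    have h4 : |((e.card : ℝ) - w) * (μ - w)| ≤ L ^ 2 := by
      rw [abs_mul, sq]
      exact mul_le_mul h2 hμw (abs_nonneg _) (by linarith)
    have h5 := abs_le.1 h4
    have h6 : 0 ≤ ((e.card : ℝ) - w) ^ 2 := sq_nonneg _
    simp only [hθ']
    rw [abs_le]
    constructor
    · nlinarith [h5.1, h5.2, mul_nonneg (show (0:ℝ) ≤ w - 1 by linarith) (sub_nonneg.2 h5.2)]
    · nlinarith [h5.1, h5.2, mul_nonneg (show (0:ℝ) ≤ w - 1 by linarith)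
        (show (0:ℝ) ≤ L ^ 2 + ((e.card : ℝ) - w) * (μ - w) by linarith [h5.1])]
  have hAb : |A| ≤ 17 * L ^ 2 * w := by
    have h1 : b * A = (w - 1) * W - ∑ e ∈ H, θ' e := by
      rw [← hFsum, Finset.mul_sum, Finset.sum_congr rfl hform, Finset.sum_add_distrib,
        Finset.sum_const, nsmul_eq_mul]
      ring
    have h2 : |∑ e ∈ H, θ' e| ≤ b * (5 * L ^ 2 * w) := by
      refine (Finset.abs_sum_le_sum_abs _ _).trans ?_
      refine (Finset.sum_le_sum (g := fun _ => 5 * L ^ 2 * w) hθ'b).trans ?_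
      rw [Finset.sum_const, nsmul_eq_mul]
    have h3 := abs_le.1 h2
    have h4 : (w - 1) * W ≤ b * (12 * L ^ 2 * w) := by
      have h5 : (w - 1) * W ≤ w * (4 * L ^ 2 * w ^ 2) := by
        apply mul_le_mul (by linarith) hW1 hW0 hw0.le
      have h6 : w * (4 * L ^ 2 * w ^ 2) ≤ (w * (4 * L ^ 2)) * (3 * b) := by
        have : w * (4 * L ^ 2 * w ^ 2) = (w * (4 * L ^ 2)) * w ^ 2 := by ring
        rw [this]
        gcongr
      nlinarith
    have h5 : 0 ≤ (w - 1) * W := mul_nonneg (by linarith) hW0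
    rw [abs_le]
    constructor
    · by_contra hcon
      push Not at hcon
      have h7 : b * A < b * (-(17 * L ^ 2 * w)) := mul_lt_mul_of_pos_left hcon hb0
      have h8 : 0 ≤ b * (12 * L ^ 2 * w) :=
        mul_nonneg hb0.le (mul_nonneg (mul_nonneg (by norm_num) (sq_nonneg L)) hw0.le)
      nlinarith [h3.1, h3.2]
    · by_contra hcon
      push Not at hcon
      have h7 : b * (17 * L ^ 2 * w) < b * A := mul_lt_mul_of_pos_left hcon hb0
      nlinarith [h3.1, h3.2]
  have hFb : ∀ e ∈ H, |F e| ≤ 44 * L ^ 2 := by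
    intro e he
    have h1 := hform e he
    have h2 : |(w - 1) * F e| ≤ 22 * L ^ 2 * w := by
      rw [h1]
      refine (abs_add_le _ _).trans ?_
      linarith [hθ'b e he]
    rw [abs_mul, abs_of_pos (show (0:ℝ) < w - 1 by linarith)] at h2
    by_contra hcon
    push Not at hcon
    have h3 : 0 < L ^ 2 := by positivity
    have h4 : (w - 1) * (44 * L ^ 2) < (w - 1) * |F e| := by
      apply mul_lt_mul_of_pos_left hcon (by linarith)
    nlinarith
  have hWb : W ≤ 11616 * L ^ 4 * w := by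
    have h1 : ∑ e ∈ H, F e ^ 2 ≤ b * (44 * L ^ 2) ^ 2 := by
      refine (Finset.sum_le_sum (g := fun _ => (44 * L ^ 2) ^ 2) ?_).trans ?_
      · intro e he
        rw [← sq_abs]
        exact pow_le_pow_left₀ (abs_nonneg _) (hFb e he) 2
      · rw [Finset.sum_const, nsmul_eq_mul]
    have h2 : (w - L - 1) * W ≤ ∑ e ∈ H, F e ^ 2 := by
      rw [hF2sum, hW, Finset.mul_sum]
      apply Finset.sum_le_sum
      intro x _
      have h3 := (abs_le.1 (hr x)).1
      have h4 : f x ^ 2 = f x * f x := by ring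
      rw [h4]
      apply mul_le_mul_of_nonneg_right _ (mul_self_nonneg _)
      linarith
    have h3 : (w / 2) * W ≤ 3 * w ^ 2 * (44 * L ^ 2) ^ 2 := by
      calc (w / 2) * W ≤ (w - L - 1) * W := by
            apply mul_le_mul_of_nonneg_right _ hW0
            linarith
        _ ≤ b * (44 * L ^ 2) ^ 2 := h2.trans h1
        _ ≤ 3 * w ^ 2 * (44 * L ^ 2) ^ 2 := by gcongr
    by_contra hcon
    push Not at hcon
    have h4 : (w / 2) * (11616 * L ^ 4 * w) < (w / 2) * W := by
      apply mul_lt_mul_of_pos_left hcon (by linarith)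
    nlinarith
  -- nearest integer
  set r0 : ℤ := round μ with hr0
  have hr0μ : |μ - r0| ≤ 1 / 2 := abs_sub_round μ
  set σ : ℝ := S - n * r0 with hσ
  have hσb : |σ| ≤ 46464 * L ^ 4 * w := by
    have h1 : σ = ∑ x, ((rep H x : ℝ) - r0) := by
      rw [Finset.sum_sub_distrib, Finset.sum_const, nsmul_eq_mul, Finset.card_univ, hσ]
      rfl
    rw [h1]
    refine (Finset.abs_sum_le_sum_abs _ _).trans ?_
    have h2 : ∀ x ∈ (Finset.univ : Finset V), |(rep H x : ℝ) - r0| ≤ 4 * f x ^ 2 := by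
      intro x _
      by_cases hx : ((rep H x : ℤ) = r0)
      · have h3 : ((rep H x : ℝ) = (r0 : ℝ)) := by exact_mod_cast hx
        rw [h3, sub_self, abs_zero]
        positivity
      · have h3 : (1 : ℝ) ≤ |(rep H x : ℝ) - r0| := by
          have h4 : (1 : ℤ) ≤ |(rep H x : ℤ) - r0| := by
            apply Int.one_le_abs
            exact sub_ne_zero.2 hx
          exact_mod_cast h4
        have h5 : |(rep H x : ℝ) - r0| ≤ |f x| + 1 / 2 := by
          have : (rep H x : ℝ) - r0 = f x + (μ - r0) := by simp only [hf]; ring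
          rw [this]
          refine (abs_add_le _ _).trans ?_
          linarith
        have h6 : 1 / 2 ≤ |f x| := by linarith
        have h7 : f x ^ 2 = |f x| ^ 2 := (sq_abs _).symm
        rw [h7]
        nlinarith
    refine (Finset.sum_le_sum h2).trans ?_
    rw [← Finset.mul_sum]
    linarith
  -- the number of blocks
  obtain ⟨e, he⟩ := hH
  refine ⟨r0 - 1, (H.card : ℤ) - ((r0 - 1) ^ 2 + (r0 - 1) + 1), ?_, ?_, by ring⟩
  · push_cast
    have h1 := abs_le.1 hr0μ
    have h2 := abs_le.1 hμw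
    rw [abs_le]
    constructor <;> linarith [h1.1, h1.2, h2.1, h2.2]
  · have h1 : θ e = (S - Rs H e + (e.card : ℝ) ^ 2 - e.card * n) - w * (b - 1 + e.card - Rs H e) := by
      simp only [hθ]
      rw [Kd_eq hL he (hne e he), Dd_eq hL he (hne e he)]
    have h2 := b_formula w b e.card S n (Rs H e) (F e) ((e.card : ℝ) - w) ((r0 : ℝ) - w) σ (θ e) r0
      ((r0 : ℝ) - 1) hw0.ne' hw.symm h1 rfl rfl rfl rfl rfl
    have hκ := hk e he
    have hρ : |(r0 : ℝ) - w| ≤ 2 * L := by
      have h1 := abs_le.1 hr0μ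
      have h2 := abs_le.1 hμw
      rw [abs_le]
      constructor <;> linarith [h1.1, h1.2, h2.1, h2.2]
    push_cast
    rw [← hb]
    set κ : ℝ := (e.card : ℝ) - w with hκdef
    set ρ : ℝ := (r0 : ℝ) - w with hρdef
    have hL4 : L ^ 2 ≤ L ^ 4 := pow_le_pow_right₀ hL1 (by norm_num)
    have hL41 : 1 ≤ L ^ 4 := one_le_pow₀ hL1
    have e1 : |ρ * κ - ρ ^ 2| ≤ 6 * L ^ 2 := by
      have a1 : |ρ * κ| ≤ 2 * L * L := by
        rw [abs_mul]; exact mul_le_mul hρ hκ (abs_nonneg _) (by linarith)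
      have a2 : |ρ ^ 2| ≤ (2 * L) ^ 2 := by
        rw [abs_pow]; exact pow_le_pow_left₀ (abs_nonneg _) hρ 2
      refine (abs_sub _ _).trans ?_
      nlinarith
    have e2 : |κ ^ 2 - ρ * κ| ≤ 3 * L ^ 2 := by
      have a1 : |ρ * κ| ≤ 2 * L * L := by
        rw [abs_mul]; exact mul_le_mul hρ hκ (abs_nonneg _) (by linarith)
      have a2 : |κ ^ 2| ≤ L ^ 2 := by
        rw [abs_pow]; exact pow_le_pow_left₀ (abs_nonneg _) hκ 2
      refine (abs_sub _ _).trans ?_
      nlinarith
    have e3 : |(w - 1) * σ * e.card / w ^ 2| ≤ 92928 * L ^ 4 * w := by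
      have a1 : |(e.card : ℝ)| ≤ 2 * w := by
        have := (abs_le.1 hκ).2
        rw [abs_of_nonneg (Nat.cast_nonneg _)]
        linarith
      rw [abs_div, abs_mul, abs_mul, abs_of_pos (show (0:ℝ) < w - 1 by linarith),
        abs_of_pos (show (0:ℝ) < w ^ 2 by positivity), div_le_iff₀ (by positivity)]
      calc (w - 1) * |σ| * |(e.card : ℝ)| ≤ w * (46464 * L ^ 4 * w) * (2 * w) := by
            apply mul_le_mul _ a1 (abs_nonneg _)
            · exact mul_nonneg hw0.le (mul_nonneg (mul_nonneg (by norm_num) (by linarith)) hw0.le)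
            · exact mul_le_mul (by linarith) hσb (abs_nonneg _) hw0.le
        _ = 92928 * L ^ 4 * w * w ^ 2 := by ring
    have e4 : |(w - 1) * F e| ≤ 44 * L ^ 4 * w := by
      rw [abs_mul, abs_of_pos (show (0:ℝ) < w - 1 by linarith)]
      calc (w - 1) * |F e| ≤ w * (44 * L ^ 2) := by
            apply mul_le_mul (by linarith) (hFb e he) (abs_nonneg _) hw0.le
        _ ≤ w * (44 * L ^ 4) := by gcongr
        _ = 44 * L ^ 4 * w := by ring
    have e5 : |θ e| ≤ 4 * L ^ 4 * w := by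
      refine (hθb e he).trans ?_
      gcongr
    have e6 : |w * (b - (((r0 : ℝ) - 1) ^ 2 + ((r0 : ℝ) - 1) + 1))| ≤ w * (200000 * L ^ 4) := by
      rw [h2]
      have t1 : |w * (ρ * κ - ρ ^ 2)| ≤ w * (6 * L ^ 4) := by
        rw [abs_mul, abs_of_pos hw0]
        gcongr
        linarith
      have t2 : |κ ^ 2 - ρ * κ| ≤ w * (3 * L ^ 4) := by
        refine e2.trans ?_
        have : 1 * (3 * L ^ 2) ≤ w * (3 * L ^ 4) := by
          apply mul_le_mul (by linarith) (by linarith) (by positivity) hw0.le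
        linarith
      have t3 := abs_le.1 t1
      have t4 := abs_le.1 t2
      have t5 := abs_le.1 e3
      have t6 := abs_le.1 e4
      have t7 := abs_le.1 e5
      have t8 := abs_le.1 hσb
      have t9 : 0 ≤ w * L ^ 4 := by positivity
      rw [abs_le]
      constructor <;>
        linarith [t3.1, t3.2, t4.1, t4.2, t5.1, t5.2, t6.1, t6.2, t7.1, t7.2, t8.1, t8.2]
    rw [abs_mul, abs_of_pos hw0] at e6
    exact le_of_mul_le_mul_left e6 hw0

end Pool.Agent.Lib_helper1.PBD
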